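import Pool.Agent.Lib.MP_b5021c_nt.IfaceOF

/-!
# Row OF_NUM: the numbers for a drop free load (PaperOF.md 3)
-/

set_option autoImplicit false

namespace Pool.Agent.B5.OF84

open Pool.Agent.B5

/-- Bounds for `X = T' + 1/T'` from the rank. -/
theorem rank_facts (r : ℕ) (T' : ℝ) (h1 : 1 < T')
    (he : Even r → (r : ℝ) ≤ 2 * (T' - 1 / T')) (ho : Odd r → (r : ℝ) + 1 ≤ 2 * T') :
    (r : ℝ) / 2 < T' ∧ (∀ k : ℕ, 2 * k ≤ r → (k : ℝ) ^ 2 + 4 ≤ (T' + T'⁻¹) ^ 2) ∧
      ∀ k : ℕ, 1 ≤ k → 2 * k ≤ r + 1 → (k : ℝ) ≤ T' := by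
  have h0 : 0 < T' := by linarith
  have hi0 : 0 < T'⁻¹ := inv_pos.2 h0
  have hi1 : T'⁻¹ < 1 := inv_lt_one_of_one_lt₀ h1
  have hTT : T' * T'⁻¹ = 1 := mul_inv_cancel₀ h0.ne'
  rw [one_div] at he
  refine ⟨?_, ?_, ?_⟩
  · rcases Nat.even_or_odd r with h | h
    · have := he h
      linarith
    · have := ho h
      linarith
  · intro k hk
    have hk0 : (0 : ℝ) ≤ k := Nat.cast_nonneg k
    have h2 : (k : ℝ) ≤ T' - T'⁻¹ := by
      rcases Nat.even_or_odd r with h | h
      · have := he h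
        have h3 : (2 : ℝ) * k ≤ r := by exact_mod_cast hk
        linarith
      · have := ho h
        have h3 : 2 * k + 1 ≤ r := by
          rcases h with ⟨m, hm⟩
          omega
        have h4 : (2 : ℝ) * k + 1 ≤ r := by exact_mod_cast h3
        linarith
    nlinarith
  · intro k hk1 hk
    rcases Nat.even_or_odd r with h | h
    · have := he h
      have h3 : 2 * k ≤ r := by
        rcases h with ⟨m, hm⟩
        omega
      have h4 : (2 : ℝ) * k ≤ r := by exact_mod_cast h3
      linarith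
    · have := ho h
      have h4 : (2 : ℝ) * k ≤ r + 1 := by exact_mod_cast hk
      linarith

/-- The main inequality at `T = j + 1`. -/
theorem at_top (j l : ℕ) (u : ℤ) (a X : ℝ) (hj : 2 ≤ j) (a0 : 0 < a) (a1 : a < 1)
    (hT : a⁻¹ < j + 1) (hX : 2 < X)
    (h : X + u * (1 - a) + l * (a / (1 - a) * (X - 2)) ≤ a⁻¹ + 1) :
    (u : ℝ) < a⁻¹ ∧ u ≤ j ∧
      X * j * (j + 1) + u * j ^ 2 + l * (X - 2) * (j + 1) < (j + 2) * j * (j + 1) := by
  set T := a⁻¹ with hTd
  have hT1 : 1 < T := (one_lt_inv₀ a0).2 a1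
  have haT : a = T⁻¹ := by rw [hTd, inv_inv]
  have hjr : (2 : ℝ) ≤ j := by exact_mod_cast hj
  have hl0 : (0 : ℝ) ≤ l := Nat.cast_nonneg l
  have e1 : a / (1 - a) = 1 / (T - 1) := by
    rw [haT]
    field_simp
  have e2 : 1 - a = (T - 1) / T := by
    rw [haT]
    field_simp
  rw [e1, e2] at h
  have h3 : 0 ≤ (l : ℝ) * (1 / (T - 1) * (X - 2)) :=
    mul_nonneg hl0 (mul_nonneg (one_div_nonneg.2 (by linarith)) (by linarith))
  have hu : (u : ℝ) < T := by
    have h4 : (u : ℝ) * ((T - 1) / T) < T - 1 := by linarith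
    have h5 : (u : ℝ) * ((T - 1) / T) = (T - 1) * (u / T) := by ring
    rw [h5] at h4
    have h6 : (u : ℝ) / T < 1 := by
      by_contra hc
      have := not_lt.1 hc
      nlinarith
    rwa [div_lt_one (by linarith)] at h6
  refine ⟨hu, ?_, ?_⟩
  · have h7 : (u : ℝ) < (j : ℝ) + 1 := by linarith
    have h8 : (u : ℝ) < ((j + 1 : ℤ) : ℝ) := by push_cast; exact h7
    have h9 : u < (j : ℤ) + 1 := by exact_mod_cast h8
    omega
  · -- the function is decreasing in T
    set J : ℝ := (j : ℝ) + 1 with hJ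
    have hJ0 : 0 < J := by positivity
    have hT0 : 0 < T := by linarith
    have hj0 : (0 : ℝ) < j := by linarith
    have k1 : 1 / J < 1 / T := one_div_lt_one_div_of_lt hT0 hT
    have k2 : (l : ℝ) * (X - 2) / j ≤ (l : ℝ) * (1 / (T - 1) * (X - 2)) := by
      have : 1 / (j : ℝ) ≤ 1 / (T - 1) := one_div_le_one_div_of_le (by linarith) (by linarith)
      have h5 := mul_le_mul_of_nonneg_left this (mul_nonneg hl0 (by linarith : 0 ≤ X - 2))
      calc (l : ℝ) * (X - 2) / j = (l : ℝ) * (X - 2) * (1 / j) := by ring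
        _ ≤ (l : ℝ) * (X - 2) * (1 / (T - 1)) := h5
        _ = _ := by ring
    have k3 : (u : ℝ) * ((T - 1) / T) = u - u / T := by field_simp
    have k4 : (u : ℝ) * (j / J) = u - u / J := by
      have : (j : ℝ) = J - 1 := by rw [hJ]; ring
      rw [this]
      field_simp
    -- u / T - u / J < J - T
    have k5 : (u : ℝ) / T - u / J < J - T := by
      have e3 : (u : ℝ) / T - u / J = (u / T) * ((J - T) / J) := by
        field_simp
      rw [e3]
      have h6 : (u : ℝ) / T < 1 := (div_lt_one hT0).2 hu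
      have h7 : 0 < (J - T) / J := div_pos (by linarith) hJ0
      have h8 : (J - T) / J < J - T := by
        rw [div_lt_iff₀ hJ0]
        nlinarith
      nlinarith
    have k6 : X + u * (j / J) + (l : ℝ) * (X - 2) / j < J + 1 := by
      rw [k4]
      rw [k3] at h
      linarith
    have k7 := mul_lt_mul_of_pos_right k6 (mul_pos hj0 hJ0)
    have k8 : (X + u * (j / J) + (l : ℝ) * (X - 2) / j) * (j * J) =
        X * j * J + u * j ^ 2 + l * (X - 2) * J := by
      field_simp
    rw [k8] at k7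
    calc X * j * J + u * j ^ 2 + l * (X - 2) * J < (J + 1) * (j * J) := k7
      _ = (j + 2) * j * J := by rw [hJ]; ring

/-- `l = 0`. -/
theorem c0 (j u X : ℝ) (hj : 2 ≤ j) (hu : 2 ≤ u) (hX0 : 0 < X) (hX2 : j ^ 2 + 4 ≤ X ^ 2)
    (A3 : X * j * (j + 1) + u * j ^ 2 < (j + 2) * j * (j + 1)) : False := by
  have hj0 : 0 < j := by linarith
  have d0 : 2 * j ^ 2 ≤ u * j ^ 2 := mul_le_mul_of_nonneg_right hu (sq_nonneg j)
  have d2 : X * (j + 1) < j * (j + 1) + 2 := by
    have : (X * (j + 1)) * j < (j * (j + 1) + 2) * j := by linarith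
    exact lt_of_mul_lt_mul_right this hj0.le
  have d4 : (X * (j + 1)) ^ 2 < (j * (j + 1) + 2) ^ 2 :=
    pow_lt_pow_left₀ d2 (by positivity) (by norm_num)
  have d5 : (j ^ 2 + 4) * (j + 1) ^ 2 ≤ X ^ 2 * (j + 1) ^ 2 :=
    mul_le_mul_of_nonneg_right hX2 (by positivity)
  nlinarith

/-- `l = 1`. -/
theorem c1 (j u X : ℝ) (hj : 2 ≤ j) (hu : 2 ≤ u) (d1 : j ^ 2 + 1 ≤ X * j)
    (A3 : X * j * (j + 1) + u * j ^ 2 + (X - 2) * (j + 1) < (j + 2) * j * (j + 1)) : False := by
  have hj0 : 0 < j := by linarith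
  have d0 : 2 * j ^ 2 ≤ u * j ^ 2 := mul_le_mul_of_nonneg_right hu (sq_nonneg j)
  have d2 : X * j * (j + 1) + 2 * j ^ 2 + (X - 2) * (j + 1) < (j + 2) * j * (j + 1) := by
    linarith
  have d3 := mul_lt_mul_of_pos_right d2 hj0
  have d4 : (j ^ 2 + 1) * ((j + 1) * j + (j + 1)) ≤ X * j * ((j + 1) * j + (j + 1)) :=
    mul_le_mul_of_nonneg_right d1 (by positivity)
  have d5 : 0 ≤ j ^ 2 * (j - 2) := mul_nonneg (sq_nonneg j) (by linarith)
  nlinarith

/-- `l = 2`, `u ≥ 3`, `j ≥ 5`. -/
theorem c2 (j u X : ℝ) (hj : 5 ≤ j) (hu : 3 ≤ u) (hx : j - 1 < X)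
    (A3 : X * j * (j + 1) + u * j ^ 2 + 2 * (X - 2) * (j + 1) < (j + 2) * j * (j + 1)) :
    False := by
  have d0 : 3 * j ^ 2 ≤ u * j ^ 2 := mul_le_mul_of_nonneg_right hu (sq_nonneg j)
  have d1 : (j - 1) * ((j + 2) * (j + 1)) ≤ X * ((j + 2) * (j + 1)) :=
    mul_le_mul_of_nonneg_right hx.le (by positivity)
  nlinarith

/-- `l = 2`, `u = 2`. -/
theorem c22 (j T X x0 : ℝ) (hT2 : 2 < T) (hT : T < j + 1) (hx : x0 < X)
    (e3 : X * (T * (T + 2)) ≤ T ^ 3 - T ^ 2 + 4 * T + 2)
    (hc : (j + 1) ^ 3 - (j + 1) ^ 2 + 4 * (j + 1) + 2 ≤ x0 * ((j + 1) * (j + 3)))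
    (hc2 : (18 : ℝ) / 8 ≤ x0 + 1 / 4) (hx5 : x0 ≤ 5) : False := by
  have hT0 : 0 < T := by linarith
  have e4 : x0 * (T * (T + 2)) < X * (T * (T + 2)) :=
    mul_lt_mul_of_pos_right hx (by positivity)
  have e5 : x0 * (T * (T + 2)) < T ^ 3 - T ^ 2 + 4 * T + 2 := by linarith
  -- convexity on `[2, j + 1]`
  set J := j + 1 with hJ
  have e6 : J ^ 3 - J ^ 2 + 4 * J + 2 ≤ x0 * (J * (J + 2)) := by
    have : J + 2 = j + 3 := by rw [hJ]; ring
    rw [this]
    exact hc
  have h1 : 0 < T - 2 := by linarith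
  have h2 : 0 < J - T := by linarith
  -- f J * (T - 2) + f 2 * (J - T) - f T * (J - 2) = (T - 2) (J - T) (J - 2) (J + T + 1 - x0)
  have h3 : (J ^ 3 - J ^ 2 + 4 * J + 2 - x0 * (J * (J + 2))) * (T - 2) +
      (14 - x0 * 8) * (J - T) - (T ^ 3 - T ^ 2 + 4 * T + 2 - x0 * (T * (T + 2))) * (J - 2) =
      (T - 2) * (J - T) * (J - 2) * (J + T + 1 - x0) := by ring
  have h4 : 0 ≤ (T - 2) * (J - T) * (J - 2) * (J + T + 1 - x0) := by
    have : 0 ≤ J + T + 1 - x0 := by linarith
    have : 0 < J - 2 := by linarith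
    positivity
  have h5 : (J ^ 3 - J ^ 2 + 4 * J + 2 - x0 * (J * (J + 2))) * (T - 2) ≤ 0 :=
    mul_nonpos_of_nonpos_of_nonneg (by linarith) h1.le
  have h6 : (14 - x0 * 8) * (J - T) ≤ 0 :=
    mul_nonpos_of_nonpos_of_nonneg (by linarith) h2.le
  have h7 : 0 < (T ^ 3 - T ^ 2 + 4 * T + 2 - x0 * (T * (T + 2))) * (J - 2) :=
    mul_pos (by linarith) (by linarith)
  linarith

/-- `l = 3`, `j ≥ 4`. -/
theorem c3 (j X : ℝ) (hj : 4 ≤ j) (hx : j - 1 < X)
    (A3 : X * j * (j + 1) + j * j ^ 2 + 3 * (X - 2) * (j + 1) < (j + 2) * j * (j + 1)) :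
    False := by
  have d1 : (j - 1) * ((j + 3) * (j + 1)) ≤ X * ((j + 3) * (j + 1)) :=
    mul_le_mul_of_nonneg_right hx.le (by positivity)
  nlinarith

/-- `l ≥ 4`. -/
theorem c4 (j l X u : ℝ) (hl : 4 ≤ l) (hX : 2 < X) (huj : u ≤ j) (hB : (l - 1) * X ≤ 2 * u)
    (hXj : j - l / 2 < X) : l < j + 1 ∧ (l - 1) * (2 * j - l) < 4 * j := by
  have h1 : 0 < l - 1 := by linarith
  have h2 := mul_lt_mul_of_pos_left hX h1
  have h3 := mul_lt_mul_of_pos_left hXj h1
  constructor
  · linarith
  · linarith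

theorem c4' (j l : ℝ) (hl : 4 ≤ l) (hlj : l ≤ j) (hj : 6 ≤ j)
    (h : (l - 1) * (2 * j - l) < 4 * j) : False := by
  nlinarith [mul_nonneg (sub_nonneg.2 hl) (sub_nonneg.2 hlj)]

theorem gts (X c d : ℝ) (hX : 0 ≤ X) (h : d ≤ X ^ 2) (hc : c ^ 2 < d) : c < X :=
  lt_of_pow_lt_pow_left₀ 2 hX (by linarith)

/-- (B) -/
theorem cB (l t0 t1 u X : ℝ) (hX : 2 < X) (h1 : (t0 - 1) * X ≤ 2 * (u + t1)) (hl : l ≤ t0)
    (ht : t1 + l ≤ t0) : (l - 1) * X ≤ 2 * u := by
  have h2 : 0 ≤ (t0 - l) * (X - 2) := mul_nonneg (by linarith) (by linarith)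
  nlinarith

/-- (OF_NUM) -/
theorem onu_st : OnuS := by
  intro j l r u t0 t1 a T' hj a0 a1 hT hT' hu hr hr1 he ho hlt ht h1 h2 h3
  obtain ⟨R1, R2, R3⟩ := rank_facts r T' hT' he ho
  clear he ho
  have h0 : 0 < T' := by linarith
  have hi0 : 0 < T'⁻¹ := inv_pos.2 h0
  have hi1 : T'⁻¹ < 1 := inv_lt_one_of_one_lt₀ hT'
  have hTT : T' * T'⁻¹ = 1 := mul_inv_cancel₀ h0.ne'
  have xk : ∀ k : ℝ, 1 ≤ k → k ≤ T' → k ^ 2 + 1 ≤ (T' + T'⁻¹) * k := by
    intro k hk hkT
    have : 0 ≤ (T' - k) * (k - T'⁻¹) := mul_nonneg (by linarith) (by linarith)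
    nlinarith
  have hTX : T' < T' + T'⁻¹ := by linarith
  have hX : 2 < T' + T'⁻¹ := by
    have := mul_pos (sub_pos.2 hT') (sub_pos.2 hi1)
    nlinarith
  set X := T' + T'⁻¹ with hXd
  clear_value X
  obtain ⟨A1, A2, A3⟩ := at_top j l u a X hj a0 a1 hT hX h2
  have hjr : (2 : ℝ) ≤ j := by exact_mod_cast hj
  have hur : (2 : ℝ) ≤ u := by exact_mod_cast hu
  have hujr : (u : ℝ) ≤ j := by exact_mod_cast A2
  have hltr : (l : ℝ) ≤ t0 := by exact_mod_cast hlt
  have htr : (t1 : ℝ) + l ≤ t0 := by exact_mod_cast ht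
  have hB := cB l t0 t1 u X hX h1 hltr htr
  rcases Nat.lt_or_ge l 4 with hl4 | hl4
  swap
  · -- l ≥ 4
    have hlr : (4 : ℝ) ≤ l := by exact_mod_cast hl4
    have hrr : (2 : ℝ) * j ≤ r + l := by exact_mod_cast hr
    obtain ⟨c1, c4⟩ := c4 j l X u hlr hX hujr hB (by linarith)
    have c2 : l ≤ j := by
      have : (l : ℝ) < ((j + 1 : ℕ) : ℝ) := by push_cast; exact c1
      have : l < j + 1 := by exact_mod_cast this
      omega
    rcases Nat.lt_or_ge j 6 with hj6 | hj6
    · have hj45 : j = 4 ∨ j = 5 := by omega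
      rcases hj45 with rfl | rfl
      · have hl : l = 4 := by omega
        subst hl
        have h5 := R2 2 (by omega)
        have h6 : X ≤ 8 / 3 := by
          push_cast at hB hujr
          linarith
        have h7 := gts X (8 / 3) _ (by linarith) h5 (by norm_num)
        linarith
      · have hl : l = 4 ∨ l = 5 := by omega
        rcases hl with rfl | rfl
        · have h5 := R2 3 (by omega)
          have h6 : X ≤ 10 / 3 := by
            push_cast at hB hujr
            linarith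
          have h7 := gts X (10 / 3) _ (by linarith) h5 (by norm_num)
          linarith
        · have h5 := R3 3 (by omega) (by omega)
          push_cast at h5 hB hujr
          linarith
    · exact c4' j l hlr (by exact_mod_cast c2) (by exact_mod_cast hj6) c4
  · interval_cases l
    · -- l = 0
      have hX2 := R2 j (by omega)
      refine c0 j u X hjr hur (by linarith) hX2 ?_
      push_cast at A3
      linarith
    · -- l = 1
      have hk := R3 j (by omega) (by omega)
      refine c1 j u X hjr hur (xk j (by linarith) hk) ?_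
      push_cast at A3
      linarith
    · -- l = 2
      have hX2 : ((j : ℝ) - 1) ^ 2 + 4 ≤ X ^ 2 := by
        have := R2 (j - 1) (by omega)
        rw [Nat.cast_sub (by omega)] at this
        exact_mod_cast this
      push_cast at A3 h1 hltr htr
      rcases Int.lt_or_le 2 u with hu3 | hu2
      · -- u ≥ 3
        have hu3r : (3 : ℝ) ≤ u := by exact_mod_cast hu3
        have hj3 : 3 ≤ j := by
          have : (3 : ℝ) ≤ j := by linarith
          exact_mod_cast this
        rcases Nat.lt_or_ge j 5 with hj5 | hj5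
        · have hj34 : j = 3 ∨ j = 4 := by omega
          rcases hj34 with rfl | rfl
          · have hx := gts X 2.8 _ (by linarith) hX2 (by norm_num)
            push_cast at A3
            linarith
          · have hx := gts X 3.6 _ (by linarith) hX2 (by norm_num)
            push_cast at A3
            linarith
        · have hj5r : (5 : ℝ) ≤ j := by exact_mod_cast hj5
          have hx : (j : ℝ) - 1 < X := gts X _ _ (by linarith) hX2 (by linarith)
          exact c2 j u X hj5r hu3r hx A3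
      · -- u = 2
        have hu' : u = 2 := le_antisymm hu2 hu
        subst hu'
        have e1 : t1 + 2 = t0 := by
          by_contra hne
          have hlt' : t1 + 3 ≤ t0 := by
            push_cast at ht
            omega
          have hr3 : (t1 : ℝ) + 3 ≤ t0 := by exact_mod_cast hlt'
          push_cast at h1
          have h5 : 0 < ((t0 : ℝ) - 1) * (X - 2) := mul_pos (by linarith) (by linarith)
          linarith
        have e2 := h3 rfl e1
        have ht1 : (t1 : ℝ) = t0 - 2 := by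
          have : (t1 : ℝ) + 2 = t0 := by exact_mod_cast e1
          linarith
        have hX4 : X ≤ 4 := by
          rw [ht1] at h1
          push_cast at h1
          have h5 : 0 ≤ ((t0 : ℝ) - 2) * (X - 2) := mul_nonneg (by linarith) (by linarith)
          linarith
        push_cast at e2 A1
        clear h2 h3 h1 A3 R1 R2 R3 hB ht1 e1
        -- multiply by T ^ 2
        have haT : a * a⁻¹ = 1 := mul_inv_cancel₀ a0.ne'
        set T := a⁻¹ with hTd
        clear_value T
        have e3 : X * (T * (T + 2)) ≤ T ^ 3 - T ^ 2 + 4 * T + 2 := by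
          have := mul_le_mul_of_nonneg_right e2 (sq_nonneg T)
          have g1 : (X + 2 * (1 - a) + 2 * (a * (X - 1 - a))) * T ^ 2 =
              X * T ^ 2 + 2 * (T ^ 2 - (a * T) * T) + 2 * ((a * T) * (X - 1) * T - (a * T) ^ 2) := by
            ring
          rw [g1, haT] at this
          linarith
        have hj5 : j < 5 := by
          by_contra hc
          have h5 : (5 : ℝ) ≤ j := by exact_mod_cast not_lt.1 hc
          have h6 : (4 : ℝ) ^ 2 ≤ ((j : ℝ) - 1) ^ 2 :=
            pow_le_pow_left₀ (by norm_num) (by linarith) 2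
          have h7 := gts X 4 _ (by linarith) hX2 (by linarith)
          linarith
        have hj234 : j = 2 ∨ j = 3 ∨ j = 4 := by omega
        rcases hj234 with rfl | rfl | rfl
        · have hx := gts X 2.2 _ (by linarith) hX2 (by norm_num)
          push_cast at hT
          exact c22 2 T X 2.2 A1 hT hx e3 (by norm_num) (by norm_num) (by norm_num)
        · have hx := gts X 2.8 _ (by linarith) hX2 (by norm_num)
          push_cast at hT
          exact c22 3 T X 2.8 A1 hT hx e3 (by norm_num) (by norm_num) (by norm_num)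
        · have hx := gts X 3.6 _ (by linarith) hX2 (by norm_num)
          push_cast at hT
          exact c22 4 T X 3.6 A1 hT hx e3 (by norm_num) (by norm_num) (by norm_num)
    · -- l = 3
      have hk : (j : ℝ) - 1 ≤ T' := by
        have := R3 (j - 1) (by omega) (by omega)
        rw [Nat.cast_sub (by omega)] at this
        exact_mod_cast this
      push_cast at hB A3
      have hXu : X ≤ u := by linarith
      have hu3 : 3 ≤ u := by
        have : (2 : ℝ) < u := by linarith
        have : 2 < u := by exact_mod_cast this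
        omega
      have hj3 : 3 ≤ j := by
        have : (3 : ℤ) ≤ j := le_trans hu3 A2
        exact_mod_cast this
      have huj : (j : ℝ) = u := by
        have g1 : (j : ℝ) - 1 < u := by linarith
        have g2 : (j : ℤ) - 1 < u := by exact_mod_cast g1
        have g3 : (j : ℤ) = u := by omega
        exact_mod_cast g3
      rw [← huj] at A3
      rcases Nat.lt_or_ge j 4 with hj4 | hj4
      · have : j = 3 := by omega
        subst this
        push_cast at A3 hk
        have hx := xk 2 (by norm_num) (by linarith)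
        linarith
      · exact c3 j X (by exact_mod_cast hj4) (by linarith) A3

end Pool.Agent.B5.OF84
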